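import Pool.Agent.H2.ST.Targets

/-!
# (GEN) the coordinates generate modulo every power of the maximal ideal
-/

set_option autoImplicit false

namespace Pool.Agent.H20.ST2

open Pool.Agent.H2.ST MvPolynomial

section

variable {k : Type} [Field k] {m : ℕ}

/-- the linear part -/
noncomputable def lin (f : Pol k m) (s : Fin m ⊕ Fin m) : k := coeff (Finsupp.single s 1) f

theorem mo_eq : mo k m = idealOfVars (Fin m ⊕ Fin m) k := by
  ext f
  have h := mem_pow_idealOfVars_iff' (σ := Fin m ⊕ Fin m) (R := k) 1 f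
  rw [pow_one] at h
  rw [h, RingHom.mem_ker, constantCoeff_eq]
  constructor
  · intro h0 x hx
    have h1 : x = 0 := by
      rw [← Finsupp.degree_eq_zero_iff]
      omega
    rw [h1]
    exact h0
  · intro h0
    exact h0 0 (by simp)

theorem mem_mo {f : Pol k m} : f ∈ mo k m ↔ constantCoeff f = 0 := RingHom.mem_ker

theorem mem_mo_sq {f : Pol k m} (h0 : constantCoeff f = 0) (h1 : ∀ s, lin f s = 0) :
    f ∈ mo k m ^ 2 := by
  rw [mo_eq, mem_pow_idealOfVars_iff']
  intro x hx
  rcases Nat.lt_or_ge (Finsupp.degree x) 1 with h | h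
  · have h2 : x = 0 := by
      rw [← Finsupp.degree_eq_zero_iff]
      omega
    rw [h2]
    exact h0
  · have h2 : Finsupp.degree x = 1 := by omega
    obtain ⟨s, hs⟩ : ∃ s, x = Finsupp.single s 1 := by
      have h3 : ∃ s, x s ≠ 0 := by
        by_contra hcon
        push Not at hcon
        have h4 : x = 0 := Finsupp.ext hcon
        rw [h4] at h2
        simp at h2
      obtain ⟨s, hs⟩ := h3
      have hle : Finsupp.single s 1 ≤ x := by
        rw [Finsupp.single_le_iff]
        omega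
      have h5 : Finsupp.single s 1 + (x - Finsupp.single s 1) = x := add_tsub_cancel_of_le hle
      have h6 := congrArg Finsupp.degree h5
      rw [map_add, Finsupp.degree_single, h2] at h6
      have h7 : x - Finsupp.single s 1 = 0 := by
        rw [← Finsupp.degree_eq_zero_iff]
        omega
      rw [h7, add_zero] at h5
      exact ⟨s, h5.symm⟩
    rw [hs]
    exact h1 s

theorem cc_pd (f : Pol k m) (s : Fin m ⊕ Fin m) : constantCoeff (pderiv s f) = lin f s := by
  rw [constantCoeff_eq, coeff_pderiv]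
  simp [lin]

theorem cc_br (f g : Pol k m) : constantCoeff (br f g) =
    ∑ i : Fin m, (lin f (Sum.inl i) * lin g (Sum.inr i) -
      lin f (Sum.inr i) * lin g (Sum.inl i)) := by
  unfold br
  rw [map_sum]
  refine Finset.sum_congr rfl fun i _ => ?_
  rw [map_sub, map_mul, map_mul, cc_pd, cc_pd, cc_pd, cc_pd]

/-- the matrix of the linear parts -/
noncomputable def MA (y : Fin m ⊕ Fin m → Pol k m) :
    Matrix (Fin m ⊕ Fin m) (Fin m ⊕ Fin m) k := Matrix.of fun s t => lin (y s) t

theorem gram (y : Fin m ⊕ Fin m → Pol k m) (s t : Fin m ⊕ Fin m) :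
    (MA y * Matrix.J (Fin m) k * (MA y).transpose) s t = - constantCoeff (br (y s) (y t)) := by
  rw [cc_br, Matrix.mul_apply, Fintype.sum_sum_type]
  simp only [Matrix.mul_apply, Fintype.sum_sum_type, Matrix.J, Matrix.transpose_apply,
    Matrix.fromBlocks_apply₁₁, Matrix.fromBlocks_apply₁₂, Matrix.fromBlocks_apply₂₁,
    Matrix.fromBlocks_apply₂₂, Matrix.zero_apply, Matrix.neg_apply, Matrix.one_apply, MA,
    Matrix.of_apply, mul_zero, Finset.sum_const_zero, zero_add, add_zero, mul_neg, mul_ite, mul_one,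
    Finset.sum_neg_distrib, Finset.sum_ite_eq', Finset.mem_univ, if_true, neg_mul]
  rw [Finset.sum_sub_distrib]
  ring

theorem MA_mem {Γ : Type} [AddCommGroup Γ] {W : Γ → Submodule k (Pol k m)}
    {y : Fin m ⊕ Fin m → Pol k m} {w : Fin m → Γ} (h : Ada W y w) :
    MA y ∈ Matrix.symplecticGroup (Fin m) k := by
  rw [SymplecticGroup.mem_iff]
  ext s t
  rw [gram]
  rcases s with i | i
  · rcases t with j | j
    · rw [h.ll]
      simp [Matrix.J]
    · rw [h.lr]
      simp [Matrix.J, Matrix.one_apply]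
  · rcases t with j | j
    · rw [br_anti, map_neg, h.lr]
      simp only [Matrix.J, Matrix.fromBlocks_apply₂₁, Matrix.one_apply, neg_neg]
      exact if_congr eq_comm rfl rfl
    · rw [h.rr]
      simp [Matrix.J]

theorem lin_sum (c : Fin m ⊕ Fin m → k) (y : Fin m ⊕ Fin m → Pol k m) (u : Fin m ⊕ Fin m) :
    lin (∑ t, C (c t) * y t) u = ∑ t, c t * lin (y t) u := by
  unfold lin
  rw [coeff_sum]
  exact Finset.sum_congr rfl fun t _ => coeff_C_mul _ _ _

theorem X_sub {Γ : Type} [AddCommGroup Γ] {W : Γ → Submodule k (Pol k m)}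
    {y : Fin m ⊕ Fin m → Pol k m} {w : Fin m → Γ} (h : Ada W y w) (s : Fin m ⊕ Fin m) :
    ∃ c : Fin m ⊕ Fin m → k, (X s : Pol k m) - ∑ t, C (c t) * y t ∈ mo k m ^ 2 := by
  classical
  have hdet := SymplecticGroup.symplectic_det (MA_mem h)
  refine ⟨fun t => (MA y)⁻¹ s t, mem_mo_sq ?_ fun u => ?_⟩
  · rw [map_sub, constantCoeff_X, map_sum]
    rw [Finset.sum_eq_zero fun t _ => by rw [map_mul, h.hz, mul_zero], sub_zero]
  · have h1 : lin ((X s : Pol k m) - ∑ t, C ((MA y)⁻¹ s t) * y t) u =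
        lin (X s : Pol k m) u - lin (∑ t, C ((MA y)⁻¹ s t) * y t) u := coeff_sub _ _ _ _
    rw [h1, lin_sum]
    have h2 := congrArg (fun M : Matrix (Fin m ⊕ Fin m) (Fin m ⊕ Fin m) k => M s u)
      (Matrix.nonsing_inv_mul (MA y) hdet)
    simp only [Matrix.mul_apply] at h2
    have h3 : ∑ t, (MA y)⁻¹ s t * lin (y t) u = ∑ t, (MA y)⁻¹ s t * MA y t u := rfl
    rw [h3, h2]
    unfold lin
    rw [coeff_X, Matrix.one_apply]
    by_cases hsu : s = u
    · rw [if_pos (by rw [hsu]), if_pos hsu, sub_self]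
    · rw [if_neg (fun he => hsu (Finsupp.single_left_injective one_ne_zero he)), if_neg hsu,
        sub_self]

end

theorem pf_GEN : T_GEN := by
  intro k _ m Γ _ W y w h
  set Y : Ideal (Pol k m) := Ideal.span (Set.range y) with hY
  have h1 : mo k m ≤ Y ⊔ mo k m ^ 2 := by
    rw [show mo k m ≤ Y ⊔ mo k m ^ 2 ↔ idealOfVars (Fin m ⊕ Fin m) k ≤ Y ⊔ mo k m ^ 2 by
      rw [← mo_eq], idealOfVars, Ideal.span_le]
    rintro _ ⟨s, rfl⟩
    obtain ⟨c, hc⟩ := X_sub h s
    have h2 : (X s : Pol k m) = (∑ t, C (c t) * y t) + ((X s : Pol k m) - ∑ t, C (c t) * y t) := by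
      ring
    rw [SetLike.mem_coe, h2]
    refine Ideal.add_mem _ (Ideal.mem_sup_left ?_) (Ideal.mem_sup_right hc)
    exact Ideal.sum_mem _ fun t _ => Ideal.mul_mem_left _ _ (Ideal.subset_span ⟨t, rfl⟩)
  refine ⟨h1, ?_⟩
  have h2 : ∀ n : ℕ, mo k m ≤ Y ⊔ mo k m ^ (n + 1) := by
    intro n
    induction n with
    | zero => simp
    | succ n ih =>
      refine h1.trans (sup_le le_sup_left ?_)
      calc mo k m ^ 2 = mo k m * mo k m := sq _
        _ ≤ mo k m * (Y ⊔ mo k m ^ (n + 1)) := Ideal.mul_mono_right ih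
        _ = mo k m * Y ⊔ mo k m * mo k m ^ (n + 1) := Ideal.mul_sup _ _ _
        _ ≤ Y ⊔ mo k m ^ (n + 1 + 1) := by
            refine sup_le_sup Ideal.mul_le_right ?_
            rw [pow_succ' _ (n + 1)]
  intro N
  induction N with
  | zero =>
    intro f
    refine ⟨0, ?_⟩
    rw [pow_zero, Ideal.one_eq_top]
    trivial
  | succ N ih =>
    intro f
    have h3 : f - C (constantCoeff f) ∈ mo k m := by
      rw [mem_mo, map_sub, constantCoeff_C, sub_self]
    obtain ⟨g, hg, r, hr, hgr⟩ := Submodule.mem_sup.1 (h2 N h3)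
    rw [hY, Ideal.mem_span_range_iff_exists_fun] at hg
    obtain ⟨a, ha⟩ := hg
    choose P hP using fun s => ih (a s)
    refine ⟨C (constantCoeff f) + ∑ s, P s * X s, ?_⟩
    have h4 : f - aeval y (C (constantCoeff f) + ∑ s, P s * X s) =
        r + ∑ s, (a s - aeval y (P s)) * y s := by
      have h5 : f - C (constantCoeff f) = ∑ s, a s * y s + r := by
        rw [ha, hgr]
      rw [map_add, map_sum, aeval_C, algebraMap_eq]
      simp only [map_mul, aeval_X, sub_mul, Finset.sum_sub_distrib]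
      linear_combination h5
    rw [h4]
    refine Ideal.add_mem _ hr (Ideal.sum_mem _ fun s _ => ?_)
    rw [pow_succ]
    exact Ideal.mul_mem_mul (hP s) (mem_mo.2 (h.hz s))

end Pool.Agent.H20.ST2
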