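import Pool.Agent.H2.ST.Targets

/-!
# (PLB) the kernel is a polynomial ring in one variable
-/

set_option autoImplicit false

namespace Pool.Agent.H20.ST2

open Pool.Agent.H2.ST MvPolynomial

section

variable {k : Type} [Field k] {m : ℕ}

theorem not_const_unit {q : Pol k m} (h : IsUnit q) : ∃ c : k, q = C c := by
  rw [isUnit_iff_eq_C_of_isReduced] at h
  obtain ⟨r, -, hr⟩ := h
  exact ⟨r, hr⟩

theorem deg_pos {q : Pol k m} (h : ¬ ∃ c : k, q = C c) : 0 < q.totalDegree := by
  rcases Nat.eq_zero_or_pos q.totalDegree with h0 | h0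
  · exact absurd ⟨_, totalDegree_eq_zero_iff_eq_C.1 h0⟩ h
  · exact h0

theorem unit_of_const {q : Pol k m} (hq : q ≠ 0) (h : ∃ c : k, q = C c) : IsUnit q := by
  obtain ⟨c, rfl⟩ := h
  have hc : c ≠ 0 := by
    rintro rfl
    exact hq C_0
  exact (isUnit_iff_ne_zero.2 hc).map C

/-- the kernel of `{φ, ·}` on `K` -/
def BB (K : Subalgebra k (Pol k m)) (φ : Pol k m) (f : Pol k m) : Prop := f ∈ K ∧ br φ f = 0

theorem BB_sub_C {K : Subalgebra k (Pol k m)} {φ f : Pol k m} (h : BB K φ f) (c : k) :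
    BB K φ (f - C c) := by
  refine ⟨K.sub_mem h.1 (K.algebraMap_mem c), ?_⟩
  rw [br_sub, br_C, h.2, sub_zero]

/-- the kernel is factorially closed -/
theorem BB_fc [CharZero k] (hL : T_LFC) {K : Subalgebra k (Pol k m)} {φ : Pol k m}
    (hP : Pln K φ) {a b : Pol k m} (h0 : a * b ≠ 0) (h : BB K φ (a * b)) :
    BB K φ a ∧ BB K φ b := by
  obtain ⟨ha, hb⟩ := hP.fc a b h0 h.1
  let D : K → K := fun x => ⟨br φ x, hP.bk φ hP.ph x x.2⟩
  have hit : ∀ (n : ℕ) (x : K), ((D^[n] x : K) : Pol k m) = (br φ)^[n] (x : Pol k m) := by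
    intro n
    induction n with
    | zero => intro x; rfl
    | succ n ih =>
      intro x
      rw [Function.iterate_succ_apply, Function.iterate_succ_apply, ih]
  have hD : LND D := by
    refine ⟨fun x y => Subtype.ext ?_, fun x y => Subtype.ext ?_, fun x => ?_⟩
    · exact br_add φ x y
    · exact br_mul φ x y
    · obtain ⟨n, hn⟩ := hP.nl x x.2
      refine ⟨n, Subtype.ext ?_⟩
      rw [hit]
      exact hn
  have h1 := hL K D hD ⟨a, ha⟩ ⟨b, hb⟩ (fun h2 => h0 (congrArg Subtype.val h2))
    (Subtype.ext h.2)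
  exact ⟨⟨ha, congrArg Subtype.val h1.1⟩, ⟨hb, congrArg Subtype.val h1.2⟩⟩

theorem min_prime [CharZero k] (hL : T_LFC) {K : Subalgebra k (Pol k m)} {φ : Pol k m}
    (hP : Pln K φ) {q : Pol k m} (hq : BB K φ q) (hc : ¬ ∃ c : k, q = C c)
    (hm : ∀ g : Pol k m, BB K φ g → (¬ ∃ c : k, g = C c) → q.totalDegree ≤ g.totalDegree) :
    Prime q := by
  have hq0 : q ≠ 0 := by
    rintro rfl
    exact hc ⟨0, C_0.symm⟩
  refine Irreducible.prime ⟨fun h => hc (not_const_unit h), fun a b hab => ?_⟩
  have hab0 : a * b ≠ 0 := by rwa [← hab]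
  have hB : BB K φ (a * b) := by rwa [← hab]
  obtain ⟨h1, h2⟩ := BB_fc hL hP hab0 hB
  have ha0 : a ≠ 0 := left_ne_zero_of_mul hab0
  have hb0 : b ≠ 0 := right_ne_zero_of_mul hab0
  by_contra hcon
  push Not at hcon
  have h3 := hm a h1 fun h => hcon.1 (unit_of_const ha0 h)
  have h4 := hm b h2 fun h => hcon.2 (unit_of_const hb0 h)
  have h5 := totalDegree_mul_of_isDomain ha0 hb0
  rw [← hab] at h5
  have h6 := deg_pos hc
  omega

theorem aeval_fin2 (p f : Pol k m) (P : MvPolynomial (Fin 2) k) :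
    aeval ![p, f] P = Polynomial.eval₂
      (aeval (fun _ : Fin 1 => f) : MvPolynomial (Fin 1) k →ₐ[k] Pol k m).toRingHom p
        (finSuccEquiv k 1 P) := by
  induction P using MvPolynomial.induction_on with
  | C a =>
    have h : finSuccEquiv k 1 (C a) = Polynomial.C (C a) := by
      simp [finSuccEquiv_apply]
    rw [h, Polynomial.eval₂_C, aeval_C]
    exact (aeval_C _ _).symm
  | add a b ha hb => rw [map_add, map_add, Polynomial.eval₂_add, ha, hb]
  | mul_X a i h =>
    rw [map_mul, map_mul, Polynomial.eval₂_mul, h, aeval_X]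
    congr 1
    refine Fin.cases ?_ (fun j => ?_) i
    · rw [finSuccEquiv_X_zero, Polynomial.eval₂_X]
      rfl
    · rw [finSuccEquiv_X_succ, Polynomial.eval₂_C]
      have h1 : ![p, f] j.succ = f := by
        fin_cases j
        rfl
      rw [h1]
      exact (aeval_X (fun _ : Fin 1 => f) j).symm

/-- a dependence gives a constant modulo the prime -/
theorem mod_const [IsAlgClosed k] {p f : Pol k m} (hp : Prime p)
    (hd : ¬ AlgebraicIndependent k ![p, f]) : ∃ a : k, p ∣ f - C a := by
  rw [algebraicIndependent_iff] at hd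
  push Not at hd
  obtain ⟨P, hP0, hPne⟩ := hd
  set Q := finSuccEquiv k 1 P with hQ
  have hQne : Q ≠ 0 := by
    intro h
    exact hPne ((finSuccEquiv k 1).injective (by rw [← hQ, h, map_zero]))
  rw [aeval_fin2, ← hQ, Polynomial.eval₂_eq_sum_range] at hP0
  set g : MvPolynomial (Fin 1) k →+* Pol k m :=
    (aeval (fun _ : Fin 1 => f) : MvPolynomial (Fin 1) k →ₐ[k] Pol k m).toRingHom with hg
  set n := Q.natTrailingDegree with hn
  have hcn : Q.coeff n ≠ 0 := Polynomial.trailingCoeff_nonzero_iff_nonzero.2 hQne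
  have hmem : n ∈ Finset.range (Q.natDegree + 1) :=
    Finset.mem_range.2 (Nat.lt_succ_of_le (Polynomial.le_natDegree_of_ne_zero hcn))
  have h1 : p ^ (n + 1) ∣ g (Q.coeff n) * p ^ n := by
    have h2 := Finset.add_sum_erase _ (fun i => g (Q.coeff i) * p ^ i) hmem
    rw [hP0] at h2
    have h3 : g (Q.coeff n) * p ^ n = -∑ i ∈ (Finset.range (Q.natDegree + 1)).erase n,
        g (Q.coeff i) * p ^ i := eq_neg_of_add_eq_zero_left h2
    rw [h3, dvd_neg]
    refine Finset.dvd_sum fun i hi => ?_
    have h4 : i ≠ n := (Finset.mem_erase.1 hi).1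
    rcases Nat.lt_or_ge i n with h5 | h5
    · rw [Polynomial.coeff_eq_zero_of_lt_natTrailingDegree h5, map_zero, zero_mul]
      exact dvd_zero _
    · exact Dvd.dvd.mul_left (pow_dvd_pow p (by omega)) _
  have h2 : p ∣ g (Q.coeff n) := by
    rw [pow_succ', mul_dvd_mul_iff_right (pow_ne_zero n hp.ne_zero)] at h1
    exact h1
  have hI : (Ideal.span {p}).IsPrime := (Ideal.span_singleton_prime hp.ne_zero).2 hp
  let R := Pol k m ⧸ Ideal.span {p}
  let π : Pol k m →ₐ[k] R := Ideal.Quotient.mkₐ k (Ideal.span {p})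
  have hπ : ∀ x : Pol k m, π x = 0 ↔ p ∣ x := by
    intro x
    rw [← Ideal.mem_span_singleton]
    exact Ideal.Quotient.eq_zero_iff_mem
  have h3 : aeval (fun _ : Fin 1 => π f) (Q.coeff n) = 0 := by
    have h4 : aeval (fun _ : Fin 1 => π f) (Q.coeff n) =
        π (aeval (fun _ : Fin 1 => f) (Q.coeff n)) := by
      rw [← AlgHom.comp_apply]
      congr 1
      apply MvPolynomial.algHom_ext
      intro i
      simp
    rw [h4, hπ]
    exact h2
  have h4 : IsAlgebraic k (π f) := by
    by_contra htr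
    have h5 : AlgebraicIndependent k (fun _ : Fin 1 => π f) :=
      algebraicIndependent_unique_type_iff.2 htr
    exact hcn (algebraicIndependent_iff.1 h5 _ h3)
  have h5 : IsIntegral k (π f) := isAlgebraic_iff_isIntegral.1 h4
  have h6 : ∃ a : k, algebraMap k R a = π f := by
    refine ⟨-(minpoly k (π f)).coeff 0, ?_⟩
    have hq : (minpoly k (π f)).leadingCoeff = 1 := minpoly.monic h5
    have h : (minpoly k (π f)).degree = 1 :=
      IsAlgClosed.degree_eq_one_of_irreducible k (minpoly.irreducible h5)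
    have h7 : Polynomial.aeval (π f) (minpoly k (π f)) = 0 := minpoly.aeval k (π f)
    rw [Polynomial.eq_X_add_C_of_degree_eq_one h, hq, Polynomial.C_1, one_mul,
      Polynomial.aeval_add, Polynomial.aeval_X, Polynomial.aeval_C,
      add_eq_zero_iff_eq_neg] at h7
    rw [map_neg]
    exact h7.symm
  obtain ⟨a, ha⟩ := h6
  refine ⟨a, ?_⟩
  rw [← hπ, map_sub, ← ha]
  have h7 : π (C a) = algebraMap k R a := π.commutes a
  rw [h7, sub_self]

end

theorem pf_PLB (_h1 : T_TRC) (h2 : T_LFC) : T_PLB := by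
  intro k _ _ _ m K φ hP hdep
  have hφ : BB K φ φ := ⟨hP.ph, br_self φ⟩
  have hex : ∃ n : ℕ, ∃ q : Pol k m, BB K φ q ∧ (¬ ∃ c : k, q = C c) ∧ q.totalDegree = n :=
    ⟨_, φ, hφ, hP.nc, rfl⟩
  classical
  obtain ⟨p, hpB, hpc, hpn⟩ := Nat.find_spec hex
  have hmin : ∀ g : Pol k m, BB K φ g → (¬ ∃ c : k, g = C c) →
      p.totalDegree ≤ g.totalDegree := by
    intro g hg hgc
    rw [hpn]
    exact Nat.find_min' hex ⟨g, hg, hgc, rfl⟩
  have hpr : Prime p := min_prime h2 hP hpB hpc hmin
  refine ⟨p, hpB.1, hpB.2, ?_, ?_⟩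
  · intro c
    refine min_prime h2 hP (BB_sub_C hpB c) ?_ ?_
    · rintro ⟨d, hd⟩
      refine hpc ⟨c + d, ?_⟩
      rw [map_add, ← hd]
      ring
    · intro g hg hgc
      refine le_trans ?_ (hmin g hg hgc)
      refine (totalDegree_sub _ _).trans ?_
      rw [totalDegree_C]
      simp
  · have key : ∀ (N : ℕ) (f : Pol k m), f.totalDegree ≤ N → BB K φ f →
        f ∈ Algebra.adjoin k {p} := by
      intro N
      induction N using Nat.strong_induction_on with
      | _ N ih =>
        intro f hfN hf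
        have hCm : ∀ c : k, C c ∈ Algebra.adjoin k {p} := fun c =>
          (Algebra.adjoin k {p}).algebraMap_mem c
        by_cases hfc : ∃ c : k, f = C c
        · obtain ⟨c, rfl⟩ := hfc
          exact hCm c
        · have hd := hdep ![p, f] (by
            intro i
            fin_cases i
            · exact hpB
            · exact hf)
          obtain ⟨a, f₁, hf₁⟩ := mod_const hpr hd
          have hfa : f - C a ≠ 0 := fun h => hfc ⟨a, sub_eq_zero.1 h⟩
          have h3 : p * f₁ ≠ 0 := by rwa [← hf₁]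
          have hB : BB K φ (p * f₁) := by
            rw [← hf₁]
            exact BB_sub_C hf a
          have h4 := (BB_fc h2 hP h3 hB).2
          have h5 := totalDegree_mul_of_isDomain hpr.ne_zero (right_ne_zero_of_mul h3)
          have h6 : (f - C a).totalDegree ≤ f.totalDegree := by
            refine (totalDegree_sub _ _).trans ?_
            rw [totalDegree_C]
            simp
          have h7 := deg_pos hpc
          rw [← hf₁] at h5
          have h8 := ih f₁.totalDegree (by omega) f₁ le_rfl h4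
          have h9 : f = C a + p * f₁ := by
            rw [← hf₁]
            ring
          rw [h9]
          exact add_mem (hCm a) (mul_mem (Algebra.subset_adjoin rfl) h8)
    intro f hf hf0
    exact key _ f le_rfl ⟨hf, hf0⟩

end Pool.Agent.H20.ST2
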